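import Pool.Agent.J6H10.GI.Base

/-! # Module GI-AB: the Abelian direction -/

set_option autoImplicit false

open MeasureTheory Set Filter Topology

namespace Pool.Agent.J6H11.GIAB

open Pool.Agent.J6H10.GI

theorem exp_le {y : ℝ} (hy : y ≤ 3 / 2) : Real.exp y ≤ 5 := by
  have h1 : Real.exp y ≤ Real.exp (3 / 2) := Real.exp_le_exp.2 hy
  have h2 : Real.exp (3 / 2) ^ 2 ≤ 25 := by
    rw [← Real.exp_nat_mul]
    have e1 : ((2 : ℕ) : ℝ) * (3 / 2) = 3 := by norm_num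
    rw [e1]
    have h3 := Real.exp_one_lt_d9
    have e2 : Real.exp 3 = Real.exp 1 ^ 3 := by rw [← Real.exp_nat_mul]; norm_num
    rw [e2]
    calc Real.exp 1 ^ 3 ≤ 2.8 ^ 3 := pow_le_pow_left₀ (Real.exp_pos 1).le (by linarith) 3
      _ ≤ 25 := by norm_num
  nlinarith [Real.exp_pos (3 / 2 : ℝ)]

theorem exp_sub_one {y : ℝ} (h0 : 0 ≤ y) (hy : y ≤ 3 / 2) :
    0 ≤ Real.exp y - 1 ∧ Real.exp y - 1 ≤ 5 * y := by
  have h1 := Real.add_one_le_exp y
  have h2 := Real.add_one_le_exp (-y)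
  have h3 : Real.exp y * Real.exp (-y) = 1 := by rw [← Real.exp_add]; simp
  have h4 := exp_le hy
  have h5 := Real.exp_pos y
  constructor
  · linarith
  · have h6 : Real.exp y * (-y + 1) ≤ 1 :=
      (mul_le_mul_of_nonneg_left h2 h5.le).trans (le_of_eq h3)
    have h7 : y * Real.exp y ≤ y * 5 := mul_le_mul_of_nonneg_left h4 h0
    linarith

/-- the numerator -/
noncomputable def NN (τ σ t : ℝ) : ℝ :=
  (Real.exp (τ * σ) - 1) ^ 2 + 4 * Real.exp (τ * σ) * Real.sin (τ * t / 2) ^ 2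

theorem KK_eq (τ σ t : ℝ) : KK τ σ t = NN τ σ t / (σ ^ 2 + t ^ 2) := rfl

/-- the derivative -/
noncomputable def KD (τ σ t : ℝ) : ℝ :=
  (4 * Real.exp (τ * σ) * (τ * Real.sin (τ * t / 2) * Real.cos (τ * t / 2)) * (σ ^ 2 + t ^ 2) -
    NN τ σ t * (2 * t)) / (σ ^ 2 + t ^ 2) ^ 2

section kernel

variable {τ σ : ℝ}

theorem KK_nonneg (t : ℝ) : 0 ≤ KK τ σ t := by
  unfold KK
  positivity

theorem NN_nonneg (t : ℝ) : 0 ≤ NN τ σ t := by
  unfold NN
  positivity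

theorem NN_le (hτ : 0 < τ) (hτ1 : τ ≤ 1) (hσ : 1 / 2 ≤ σ) (hσ1 : σ ≤ 3 / 2) (t : ℝ) :
    NN τ σ t ≤ 25 * τ ^ 2 * (σ ^ 2 + t ^ 2) := by
  unfold NN
  have hy : τ * σ ≤ 3 / 2 := by nlinarith
  have hy0 : 0 ≤ τ * σ := by positivity
  obtain ⟨h1, h2⟩ := exp_sub_one hy0 hy
  have h3 := exp_le hy
  have h4 : Real.sin (τ * t / 2) ^ 2 ≤ (τ * t / 2) ^ 2 := by
    rw [sq_le_sq]
    exact Real.abs_sin_le_abs
  have h5 : (Real.exp (τ * σ) - 1) ^ 2 ≤ (5 * (τ * σ)) ^ 2 := pow_le_pow_left₀ h1 h2 2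
  have h6 : Real.exp (τ * σ) * Real.sin (τ * t / 2) ^ 2 ≤ 5 * (τ * t / 2) ^ 2 :=
    mul_le_mul h3 h4 (sq_nonneg _) (by norm_num)
  nlinarith [mul_nonneg (sq_nonneg τ) (sq_nonneg t)]

theorem NN_le' (hτ : 0 < τ) (hτ1 : τ ≤ 1) (hσ : 1 / 2 ≤ σ) (hσ1 : σ ≤ 3 / 2) (t : ℝ) :
    NN τ σ t ≤ 36 := by
  unfold NN
  have hy : τ * σ ≤ 3 / 2 := by nlinarith
  have hy0 : 0 ≤ τ * σ := by positivity
  obtain ⟨h1, h2⟩ := exp_sub_one hy0 hy
  have h3 := exp_le hy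
  have h4 := Real.sin_sq_le_one (τ * t / 2)
  have h5 : (Real.exp (τ * σ) - 1) ^ 2 ≤ 4 ^ 2 := pow_le_pow_left₀ h1 (by linarith) 2
  have h6 : Real.exp (τ * σ) * Real.sin (τ * t / 2) ^ 2 ≤ 5 * 1 :=
    mul_le_mul h3 h4 (sq_nonneg _) (by norm_num)
  linarith

theorem KK_le (hτ : 0 < τ) (hτ1 : τ ≤ 1) (hσ : 1 / 2 ≤ σ) (hσ1 : σ ≤ 3 / 2) (t : ℝ) :
    KK τ σ t ≤ 25 * τ ^ 2 := by
  rw [KK_eq, div_le_iff₀ (by positivity)]
  exact NN_le hτ hτ1 hσ hσ1 t

theorem KK_tail (hτ : 0 < τ) (hτ1 : τ ≤ 1) (hσ : 1 / 2 ≤ σ) (hσ1 : σ ≤ 3 / 2) {t : ℝ} (ht : 0 < t) :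
    KK τ σ t ≤ 36 / t ^ 2 := by
  rw [KK_eq]
  exact div_le_div₀ (by norm_num) (NN_le' hτ hτ1 hσ hσ1 t) (by positivity)
    (by nlinarith [sq_nonneg σ])

theorem KK_deriv (hσ : 1 / 2 ≤ σ) (t : ℝ) : HasDerivAt (KK τ σ) (KD τ σ t) t := by
  have h1 : HasDerivAt (fun t : ℝ => Real.sin (τ * t / 2)) (Real.cos (τ * t / 2) * (τ / 2)) t := by
    have := (((hasDerivAt_id t).const_mul τ).div_const 2).sin
    simpa using this
  have h2 : HasDerivAt (NN τ σ) (4 * Real.exp (τ * σ) *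
      (τ * Real.sin (τ * t / 2) * Real.cos (τ * t / 2))) t := by
    have := ((h1.pow 2).const_mul (4 * Real.exp (τ * σ))).const_add ((Real.exp (τ * σ) - 1) ^ 2)
    refine this.congr_deriv ?_
    norm_num
    ring
  have h3 : HasDerivAt (fun t : ℝ => σ ^ 2 + t ^ 2) (2 * t) t := by
    have := (hasDerivAt_pow 2 t).const_add (σ ^ 2)
    refine this.congr_deriv ?_
    norm_num
  exact h2.div h3 (by positivity)

theorem KD_le (hτ : 0 < τ) (hτ1 : τ ≤ 1) (hσ : 1 / 2 ≤ σ) (hσ1 : σ ≤ 3 / 2) {t : ℝ} (ht : 0 < t) :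
    |KD τ σ t| ≤ 60 * τ ^ 2 / t := by
  have hy : τ * σ ≤ 3 / 2 := by nlinarith
  have h3 := exp_le hy
  have h4 : |Real.sin (τ * t / 2)| ≤ τ * t / 2 := by
    refine Real.abs_sin_le_abs.trans (le_of_eq ?_)
    exact abs_of_pos (by positivity)
  have h5 := Real.abs_cos_le_one (τ * t / 2)
  have h6 := NN_le hτ hτ1 hσ hσ1 t
  have h7 := NN_nonneg (τ := τ) (σ := σ) t
  obtain ⟨D, hD⟩ : ∃ D : ℝ, D = σ ^ 2 + t ^ 2 := ⟨_, rfl⟩
  have hD0 : 0 < D := by rw [hD]; positivity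
  have hDt : t ^ 2 ≤ D := by rw [hD]; nlinarith [sq_nonneg σ]
  unfold KD
  rw [← hD] at h6 ⊢
  have h8 : |4 * Real.exp (τ * σ) * (τ * Real.sin (τ * t / 2) * Real.cos (τ * t / 2)) * D| ≤
      10 * τ ^ 2 * t * D := by
    rw [abs_mul, abs_of_pos hD0, abs_mul, abs_of_pos (by positivity : 0 < 4 * Real.exp (τ * σ)),
      abs_mul, abs_mul, abs_of_pos hτ]
    refine mul_le_mul_of_nonneg_right ?_ hD0.le
    have e1 : τ * |Real.sin (τ * t / 2)| * |Real.cos (τ * t / 2)| ≤ τ * (τ * t / 2) * 1 := by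
      gcongr
    calc 4 * Real.exp (τ * σ) * (τ * |Real.sin (τ * t / 2)| * |Real.cos (τ * t / 2)|) ≤
        4 * 5 * (τ * (τ * t / 2) * 1) := by gcongr
      _ = 10 * τ ^ 2 * t := by ring
  have h9 : |NN τ σ t * (2 * t)| ≤ 50 * τ ^ 2 * t * D := by
    rw [abs_of_nonneg (by positivity)]
    nlinarith
  rw [abs_div, abs_of_pos (by positivity : 0 < D ^ 2), div_le_div_iff₀ (by positivity) ht]
  have h10 := abs_sub (4 * Real.exp (τ * σ) * (τ * Real.sin (τ * t / 2) * Real.cos (τ * t / 2)) * D)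
    (NN τ σ t * (2 * t))
  calc |4 * Real.exp (τ * σ) * (τ * Real.sin (τ * t / 2) * Real.cos (τ * t / 2)) * D -
      NN τ σ t * (2 * t)| * t ≤ (60 * τ ^ 2 * t * D) * t := by
        refine mul_le_mul_of_nonneg_right ?_ ht.le
        linarith
    _ = 60 * τ ^ 2 * D * t ^ 2 := by ring
    _ ≤ 60 * τ ^ 2 * D * D := mul_le_mul_of_nonneg_left hDt (by positivity)
    _ = 60 * τ ^ 2 * D ^ 2 := by ring

theorem KK_cont (hσ : 1 / 2 ≤ σ) : Continuous (KK τ σ) := by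
  unfold KK
  refine Continuous.div (by fun_prop) (by fun_prop) fun t => ?_
  positivity

theorem KD_cont (hσ : 1 / 2 ≤ σ) : Continuous (KD τ σ) := by
  unfold KD NN
  refine Continuous.div (by fun_prop) (by fun_prop) fun t => ?_
  positivity

end kernel

/-- the constant weight -/
theorem wone : Wgt (fun _ _ => 1) 1 :=
  ⟨fun _ _ _ => continuous_const, fun _ _ => zero_le_one, fun δ T _ _ hT => by simp⟩

theorem wadd {W : ℝ → ℝ → ℝ} {C : ℝ} (h : Wgt W C) {c : ℝ} (hc : 0 ≤ c) :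
    Wgt (fun δ t => W δ t + c) (C + c) := by
  refine ⟨fun δ h0 h1 => (h.cont δ h0 h1).add continuous_const,
    fun δ t => add_nonneg (h.nonneg δ t) hc, fun δ T h0 h1 hT => ?_⟩
  rw [intervalIntegral.integral_add ((h.cont δ h0 h1).intervalIntegrable _ _)
    (continuous_const.intervalIntegrable _ _)]
  have := h.bound δ T h0 h1 hT
  simp only [intervalIntegral.integral_const, sub_zero, smul_eq_mul]
  linarith

theorem sinc_scale (hs : S_SINC) {τ : ℝ} (hτ : 0 < τ) :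
    IntegrableOn (fun t : ℝ => (1 - Real.cos (τ * t)) / t ^ 2) (Ioi 0) ∧
      ∫ t in Ioi (0 : ℝ), (1 - Real.cos (τ * t)) / t ^ 2 = τ * (Real.pi / 2) := by
  have e : ∀ t : ℝ, (1 - Real.cos (τ * t)) / t ^ 2 =
      τ ^ 2 * ((fun x : ℝ => (1 - Real.cos x) / x ^ 2) (τ * t)) := by
    intro t
    rcases eq_or_ne t 0 with rfl | ht
    · simp
    · simp only
      field_simp
  have h1 : IntegrableOn (fun t : ℝ => (fun x : ℝ => (1 - Real.cos x) / x ^ 2) (τ * t)) (Ioi 0) := by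
    rw [integrableOn_Ioi_comp_mul_left_iff (fun x : ℝ => (1 - Real.cos x) / x ^ 2) 0 hτ, mul_zero]
    exact hs.1
  simp only [e]
  refine ⟨h1.const_mul _, ?_⟩
  have h5 := integral_comp_mul_left_Ioi (fun x : ℝ => (1 - Real.cos x) / x ^ 2) 0 hτ
  rw [mul_zero, hs.2, smul_eq_mul] at h5
  rw [integral_const_mul, h5]
  field_simp

theorem Psi_one (hs : S_SINC) (hpb : S_PB) {δ τ : ℝ} (hδ : 0 < δ) (hδ1 : δ ≤ 1) (hτ : 0 < τ)
    (hτ1 : τ ≤ 1) : |Psi (fun _ _ => 1) δ τ - Real.pi * τ| ≤ 600 * τ ^ 2 := by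
  obtain ⟨K, hK, hp⟩ := hpb
  obtain ⟨i1, -, -⟩ := hp _ _ wone δ τ hδ hδ1 hτ hτ1
  obtain ⟨i2, e2⟩ := sinc_scale hs hτ
  obtain ⟨i3, -, b3⟩ := wone.full hδ hδ1 (σ := 1 / 2 + δ) (by linarith)
  have hσ : 1 / 2 ≤ 1 / 2 + δ := by linarith
  have hσ1 : 1 / 2 + δ ≤ 3 / 2 := by linarith
  obtain ⟨σ, hσd⟩ : ∃ σ : ℝ, σ = 1 / 2 + δ := ⟨_, rfl⟩
  unfold Psi
  rw [← hσd] at i1 i3 b3 hσ hσ1 ⊢
  have hy : τ * σ ≤ 3 / 2 := by nlinarith
  obtain ⟨h1, h2⟩ := exp_sub_one (by positivity) hy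
  have hE : Real.exp (τ * σ) - 1 ≤ 8 * τ := by nlinarith
  have hpt : ∀ t ∈ Ioi (0 : ℝ), ‖KK τ σ t * 1 - 2 * ((1 - Real.cos (τ * t)) / t ^ 2)‖ ≤
      67 * τ ^ 2 * (1 / (σ ^ 2 + t ^ 2)) + 16 * τ * ((1 - Real.cos (τ * t)) / t ^ 2) := by
    intro t ht
    have ht0 : (0 : ℝ) < t := ht
    obtain ⟨u, hu⟩ : ∃ u : ℝ, u = 1 - Real.cos (τ * t) := ⟨_, rfl⟩
    have hs2 : Real.sin (τ * t / 2) ^ 2 = u / 2 := by
      rw [hu, Real.sin_sq_eq_half_sub]
      rw [show 2 * (τ * t / 2) = τ * t by ring]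
      ring
    have hu0 : 0 ≤ u := by
      rw [hu]
      linarith [Real.cos_le_one (τ * t)]
    have hu1 : u ≤ τ ^ 2 * t ^ 2 / 2 := by
      have : Real.sin (τ * t / 2) ^ 2 ≤ (τ * t / 2) ^ 2 := by
        rw [sq_le_sq]
        exact Real.abs_sin_le_abs
      nlinarith
    rw [← hu, KK_eq]
    unfold NN
    rw [hs2]
    obtain ⟨E, hEd⟩ : ∃ E : ℝ, E = Real.exp (τ * σ) - 1 := ⟨_, rfl⟩
    rw [← hEd] at h1 h2 hE
    have hE2 : Real.exp (τ * σ) = E + 1 := by rw [hEd]; ring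
    rw [hE2]
    have e3 : ((E + 1 - 1) ^ 2 + 4 * (E + 1) * (u / 2)) / (σ ^ 2 + t ^ 2) * 1 - 2 * (u / t ^ 2) =
        E ^ 2 * (1 / (σ ^ 2 + t ^ 2)) + 2 * E * (u / (σ ^ 2 + t ^ 2)) -
          σ ^ 2 * (2 * u / t ^ 2) * (1 / (σ ^ 2 + t ^ 2)) := by
      field_simp
      ring
    rw [e3, Real.norm_eq_abs, abs_le]
    have hD : 0 < 1 / (σ ^ 2 + t ^ 2) := by positivity
    have b1 : E ^ 2 ≤ 64 * τ ^ 2 := by nlinarith
    have b2 : σ ^ 2 * (2 * u / t ^ 2) ≤ 3 * τ ^ 2 := by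
      have c1 : 2 * u / t ^ 2 ≤ τ ^ 2 := by
        rw [div_le_iff₀ (by positivity)]
        linarith
      have c2 : σ ^ 2 ≤ 3 := by nlinarith
      have c3 : 0 ≤ 2 * u / t ^ 2 := by positivity
      nlinarith [sq_nonneg τ, sq_nonneg σ]
    have b4 : u / (σ ^ 2 + t ^ 2) ≤ u / t ^ 2 :=
      div_le_div_of_nonneg_left hu0 (by positivity) (by nlinarith [sq_nonneg σ])
    have b5 : 0 ≤ u / (σ ^ 2 + t ^ 2) := by positivity
    have b6 := mul_le_mul_of_nonneg_right b1 hD.le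
    have b7 := mul_le_mul_of_nonneg_right b2 hD.le
    have b8 : 2 * E * (u / (σ ^ 2 + t ^ 2)) ≤ 16 * τ * (u / t ^ 2) :=
      mul_le_mul (by linarith) b4 b5 (by positivity)
    have b9 : 0 ≤ 2 * E * (u / (σ ^ 2 + t ^ 2)) := by positivity
    have b10 : 0 ≤ E ^ 2 * (1 / (σ ^ 2 + t ^ 2)) := by positivity
    have b11 : 0 ≤ σ ^ 2 * (2 * u / t ^ 2) * (1 / (σ ^ 2 + t ^ 2)) := by positivity
    have b12 : 0 ≤ 16 * τ * (u / t ^ 2) := by positivity
    have b13 : 0 ≤ τ ^ 2 * (1 / (σ ^ 2 + t ^ 2)) := by positivity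
    constructor <;> linarith
  have i4 : IntegrableOn (fun t : ℝ => 67 * τ ^ 2 * (1 / (σ ^ 2 + t ^ 2)) +
      16 * τ * ((1 - Real.cos (τ * t)) / t ^ 2)) (Ioi 0) := (i3.const_mul _).add (i2.const_mul _)
  have h3 : ∫ t in Ioi (0 : ℝ), KK τ σ t * 1 - 2 * ((1 - Real.cos (τ * t)) / t ^ 2) =
      (∫ t in Ioi (0 : ℝ), KK τ σ t * 1) - Real.pi * τ := by
    rw [integral_sub i1 (i2.const_mul _), integral_const_mul, e2]
    ring
  rw [← h3]
  have h4 := norm_integral_le_of_norm_le i4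
    ((ae_restrict_iff' measurableSet_Ioi).2 (Eventually.of_forall hpt))
  rw [integral_add (i3.const_mul _) (i2.const_mul _), integral_const_mul, integral_const_mul, e2,
    Real.norm_eq_abs] at h4
  refine h4.trans ?_
  have h5 : 67 * τ ^ 2 * ∫ t in Ioi (0 : ℝ), 1 / (σ ^ 2 + t ^ 2) ≤ 67 * τ ^ 2 * (8 * 1) :=
    mul_le_mul_of_nonneg_left b3 (by positivity)
  have h6 : 16 * τ * (τ * (Real.pi / 2)) ≤ 16 * τ * (τ * (4 / 2)) := by
    have := Real.pi_le_four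
    gcongr
  nlinarith

/-- the main estimate -/
theorem key (hpb : S_PB) {W : ℝ → ℝ → ℝ} {C c : ℝ} (hW : Wgt W C) {δ τ r M e : ℝ} (hδ : 0 < δ)
    (hδ1 : δ ≤ 1) (hM : 1 ≤ M) (hr : M ≤ r) (hτ : 0 < τ) (hτr : r * τ ≤ 1) (he0 : 0 ≤ e)
    (he : ∀ x : ℝ, M⁻¹ ≤ x → x ≤ M → |mom W δ (x * r) - c| ≤ e) :
    |r * Psi W δ τ - c * (r * Psi (fun _ _ => 1) δ τ)| ≤
      169 * (C + |c|) / M + 132 * M * e := by
  have hr0 : 0 < r := by linarith
  have hM0 : 0 < M := by linarith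
  have hτ1 : τ ≤ 1 := by nlinarith
  obtain ⟨K, hK, hp⟩ := hpb
  obtain ⟨i1, -, -⟩ := hp _ _ wone δ τ hδ hδ1 hτ hτ1
  obtain ⟨i2, -, -⟩ := hp _ _ hW δ τ hδ hδ1 hτ hτ1
  have hW' := wadd hW (abs_nonneg c)
  have hC' : 0 ≤ C + |c| := hW'.C_nonneg
  have hσ : 1 / 2 ≤ 1 / 2 + δ := by linarith
  have hσ1 : 1 / 2 + δ ≤ 3 / 2 := by linarith
  obtain ⟨σ, hσd⟩ : ∃ σ : ℝ, σ = 1 / 2 + δ := ⟨_, rfl⟩
  unfold Psi
  rw [← hσd] at i1 i2 hσ hσ1 ⊢
  have hWc := hW.cont δ hδ hδ1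
  obtain ⟨V, hV⟩ : ∃ V : ℝ → ℝ, V = fun t => W δ t - c := ⟨_, rfl⟩
  have hVc : Continuous V := by rw [hV]; exact hWc.sub continuous_const
  have hVle : ∀ t, |V t| ≤ W δ t + |c| := by
    intro t
    rw [hV]
    refine (abs_sub _ _).trans ?_
    rw [abs_of_nonneg (hW.nonneg δ t)]
  have i3 : IntegrableOn (fun t => KK τ σ t * V t) (Ioi 0) := by
    have := i2.sub (i1.const_mul c)
    refine this.congr (Eventually.of_forall fun t => ?_)
    simp only [hV, Pi.sub_apply]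
    ring
  have e1 : r * (∫ t in Ioi (0 : ℝ), KK τ σ t * W δ t) -
      c * (r * ∫ t in Ioi (0 : ℝ), KK τ σ t * 1) = r * ∫ t in Ioi (0 : ℝ), KK τ σ t * V t := by
    have : ∫ t in Ioi (0 : ℝ), KK τ σ t * V t =
        (∫ t in Ioi (0 : ℝ), KK τ σ t * W δ t) - c * ∫ t in Ioi (0 : ℝ), KK τ σ t * 1 := by
      rw [← integral_const_mul, ← integral_sub i2 (i1.const_mul c)]
      refine integral_congr_ae (Eventually.of_forall fun t => ?_)
      simp only [hV]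
      ring
    rw [this]
    ring
  rw [e1]
  have hKc := KK_cont (τ := τ) hσ
  have hKV : Continuous fun t => KK τ σ t * V t := hKc.mul hVc
  obtain ⟨a, ha⟩ : ∃ a : ℝ, a = M⁻¹ * r := ⟨_, rfl⟩
  obtain ⟨b, hb⟩ : ∃ b : ℝ, b = M * r := ⟨_, rfl⟩
  have ha1 : 1 ≤ a := by
    rw [ha, ← inv_mul_cancel₀ hM0.ne']
    exact mul_le_mul_of_nonneg_left hr (by positivity)
  have ha0 : 0 < a := by linarith
  have hab : a ≤ b := by
    rw [ha, hb]
    refine mul_le_mul_of_nonneg_right ?_ hr0.le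
    exact (inv_le_one_of_one_le₀ hM).trans hM
  have hb1 : 1 ≤ b := ha1.trans hab
  have hb0 : 0 < b := by linarith
  -- the three parts
  have s1 : (∫ t in (0 : ℝ)..a, KK τ σ t * V t) + ((∫ t in a..b, KK τ σ t * V t) +
      ∫ t in Ioi b, KK τ σ t * V t) = ∫ t in Ioi (0 : ℝ), KK τ σ t * V t := by
    rw [intervalIntegral.integral_interval_add_Ioi (i3.mono_set (Ioi_subset_Ioi ha0.le))
      (i3.mono_set (Ioi_subset_Ioi hb0.le)),
      intervalIntegral.integral_interval_add_Ioi i3 (i3.mono_set (Ioi_subset_Ioi ha0.le))]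
  -- the first part
  have p1 : |∫ t in (0 : ℝ)..a, KK τ σ t * V t| ≤ 25 * τ ^ 2 * ((C + |c|) * a) := by
    have q1 : ∀ t ∈ Ioc (0 : ℝ) a, ‖KK τ σ t * V t‖ ≤ 25 * τ ^ 2 * (W δ t + |c|) := by
      intro t _
      rw [norm_mul, Real.norm_eq_abs, Real.norm_eq_abs, abs_of_nonneg (KK_nonneg t)]
      exact mul_le_mul (KK_le hτ hτ1 hσ hσ1 t) (hVle t) (abs_nonneg _) (by positivity)
    have q0 : IntervalIntegrable (fun t => 25 * τ ^ 2 * (W δ t + |c|)) volume 0 a :=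
      (continuous_const.mul (hWc.add continuous_const)).intervalIntegrable _ _
    have q2 := intervalIntegral.norm_integral_le_of_norm_le ha0.le (Eventually.of_forall q1) q0
    rw [intervalIntegral.integral_const_mul] at q2
    refine q2.trans (mul_le_mul_of_nonneg_left ?_ (by positivity))
    exact hW'.bound δ a hδ hδ1 ha1
  -- the third part
  have p3 : |∫ t in Ioi b, KK τ σ t * V t| ≤ 36 * (4 * (C + |c|) / b) := by
    obtain ⟨t1, t2⟩ := hW'.tail hδ hδ1 hb1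
    have q1 : ∀ t ∈ Ioi b, ‖KK τ σ t * V t‖ ≤ 36 * ((W δ t + |c|) / t ^ 2) := by
      intro t ht
      have ht0 : 0 < t := lt_trans hb0 ht
      rw [norm_mul, Real.norm_eq_abs, Real.norm_eq_abs, abs_of_nonneg (KK_nonneg t)]
      refine (mul_le_mul (KK_tail hτ hτ1 hσ hσ1 ht0) (hVle t) (abs_nonneg _)
        (by positivity)).trans (le_of_eq ?_)
      ring
    have q2 := norm_integral_le_of_norm_le (t1.const_mul 36)
      ((ae_restrict_iff' measurableSet_Ioi).2 (Eventually.of_forall q1))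
    rw [integral_const_mul] at q2
    exact q2.trans (mul_le_mul_of_nonneg_left t2 (by norm_num))
  -- the second part
  obtain ⟨E, hE⟩ : ∃ E : ℝ → ℝ, E = fun t => ∫ s in (0 : ℝ)..t, V s := ⟨_, rfl⟩
  have hEd : ∀ t, HasDerivAt E (V t) t := fun t => by
    rw [hE]
    exact (hVc.integral_hasStrictDerivAt 0 t).hasDerivAt
  have hEb : ∀ t, a ≤ t → t ≤ b → |E t| ≤ e * t := by
    intro t h1 h2
    have ht0 : 0 < t := by linarith
    have h3 := he (t / r) (by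
      rw [le_div_iff₀ hr0, ← ha]
      exact h1) (by
      rw [div_le_iff₀ hr0, ← hb]
      exact h2)
    rw [div_mul_cancel₀ _ hr0.ne'] at h3
    unfold mom at h3
    have h4 : E t = ((∫ s in (0 : ℝ)..t, W δ s) / t - c) * t := by
      rw [hE, hV]
      simp only
      rw [intervalIntegral.integral_sub (hWc.intervalIntegrable _ _)
        (continuous_const.intervalIntegrable _ _)]
      simp only [intervalIntegral.integral_const, sub_zero, smul_eq_mul]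
      field_simp
    rw [h4, abs_mul, abs_of_pos ht0]
    exact mul_le_mul_of_nonneg_right h3 ht0.le
  have p2 : |∫ t in a..b, KK τ σ t * V t| ≤ 36 * e / a + 36 * e / b + 60 * τ ^ 2 * e * b := by
    rw [intervalIntegral.integral_mul_deriv_eq_deriv_mul (fun t _ => KK_deriv (τ := τ) hσ t)
      (fun t _ => hEd t) ((KD_cont hσ).intervalIntegrable _ _) (hVc.intervalIntegrable _ _)]
    have q1 : ∀ t, a ≤ t → t ≤ b → |KK τ σ t * E t| ≤ 36 * e / t := by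
      intro t h1 h2
      have ht0 : 0 < t := by linarith
      rw [abs_mul, abs_of_nonneg (KK_nonneg t)]
      refine (mul_le_mul (KK_tail hτ hτ1 hσ hσ1 ht0) (hEb t h1 h2) (abs_nonneg _)
        (by positivity)).trans (le_of_eq ?_)
      field_simp
    have q2 : ‖∫ t in a..b, KD τ σ t * E t‖ ≤ 60 * τ ^ 2 * e * |b - a| := by
      refine intervalIntegral.norm_integral_le_of_norm_le_const fun t ht => ?_
      rw [uIoc_of_le hab] at ht
      have ht0 : 0 < t := by linarith [ht.1]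
      rw [norm_mul, Real.norm_eq_abs, Real.norm_eq_abs]
      refine (mul_le_mul (KD_le hτ hτ1 hσ hσ1 ht0) (hEb t ht.1.le ht.2) (abs_nonneg _)
        (by positivity)).trans (le_of_eq ?_)
      field_simp
    have q3 : |b - a| ≤ b := by
      rw [abs_of_nonneg (by linarith)]
      linarith
    have q4 : 60 * τ ^ 2 * e * |b - a| ≤ 60 * τ ^ 2 * e * b :=
      mul_le_mul_of_nonneg_left q3 (by positivity)
    have q5 := q1 a le_rfl hab
    have q6 := q1 b hab le_rfl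
    have q7 := abs_sub (KK τ σ b * E b - KK τ σ a * E a) (∫ t in a..b, KD τ σ t * E t)
    have q8 := abs_sub (KK τ σ b * E b) (KK τ σ a * E a)
    rw [Real.norm_eq_abs] at q2
    linarith
  -- all together
  have z1 : r * (25 * τ ^ 2 * ((C + |c|) * a)) ≤ 25 * (C + |c|) / M := by
    have : r * (25 * τ ^ 2 * ((C + |c|) * a)) = (r * τ) ^ 2 * (25 * (C + |c|) / M) := by
      rw [ha]
      field_simp
    rw [this]
    exact mul_le_of_le_one_left (by positivity) (pow_le_one₀ (by positivity) hτr)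
  have z3 : r * (36 * (4 * (C + |c|) / b)) = 144 * (C + |c|) / M := by
    rw [hb]
    field_simp
    ring
  have z2 : r * (36 * e / a + 36 * e / b + 60 * τ ^ 2 * e * b) ≤ 132 * M * e := by
    have y1 : r * (36 * e / a) = 36 * M * e := by
      rw [ha]
      field_simp
    have y2 : r * (36 * e / b) ≤ 36 * M * e := by
      have : r * (36 * e / b) = 36 * e / M := by
        rw [hb]
        field_simp
      rw [this, div_le_iff₀ hM0]
      nlinarith [mul_nonneg he0 (by nlinarith : 0 ≤ M * M - 1)]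
    have y3 : r * (60 * τ ^ 2 * e * b) ≤ 60 * M * e := by
      have : r * (60 * τ ^ 2 * e * b) = (r * τ) ^ 2 * (60 * M * e) := by
        rw [hb]
        ring
      rw [this]
      exact mul_le_of_le_one_left (by positivity) (pow_le_one₀ (by positivity) hτr)
    linarith
  rw [abs_mul, abs_of_pos hr0, ← s1]
  have w1 := abs_add_le (∫ t in (0 : ℝ)..a, KK τ σ t * V t)
    ((∫ t in a..b, KK τ σ t * V t) + ∫ t in Ioi b, KK τ σ t * V t)
  have w2 := abs_add_le (∫ t in a..b, KK τ σ t * V t) (∫ t in Ioi b, KK τ σ t * V t)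
  have w3 : |(∫ t in (0 : ℝ)..a, KK τ σ t * V t) +
      ((∫ t in a..b, KK τ σ t * V t) + ∫ t in Ioi b, KK τ σ t * V t)| ≤
      25 * τ ^ 2 * ((C + |c|) * a) + (36 * e / a + 36 * e / b + 60 * τ ^ 2 * e * b) +
        36 * (4 * (C + |c|) / b) := by linarith
  have w4 := mul_le_mul_of_nonneg_left w3 hr0.le
  have w5 : 25 * (C + |c|) / M + 144 * (C + |c|) / M = 169 * (C + |c|) / M := by ring
  linarith

theorem tau_le {r : ℝ} (hr : 2 ≤ r) : 0 < Real.log (1 + 1 / r) ∧ r * Real.log (1 + 1 / r) ≤ 1 ∧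
    1 - 1 / r ≤ r * Real.log (1 + 1 / r) := by
  have hr0 : 0 < r := by linarith
  have h1 : 0 < 1 / r := by positivity
  refine ⟨Real.log_pos (by linarith), ?_, ?_⟩
  · have h2 := Real.log_le_sub_one_of_pos (by linarith : 0 < 1 + 1 / r)
    have h3 := mul_le_mul_of_nonneg_left h2 hr0.le
    refine h3.trans (le_of_eq ?_)
    field_simp
    ring
  · have h2 := Real.one_sub_inv_le_log_of_pos (by linarith : 0 < 1 + 1 / r)
    have h3 := mul_le_mul_of_nonneg_left h2 hr0.le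
    refine le_trans ?_ h3
    have h4 : r * (1 - (1 + 1 / r)⁻¹) = 1 - 1 / (r + 1) := by
      field_simp
      ring
    rw [h4]
    have : 1 / (r + 1) ≤ 1 / r := one_div_le_one_div_of_le hr0 (by linarith)
    linarith

theorem ab (hs : S_SINC) (hpb : S_PB) : S_AB := by
  intro W C c hW hc a ha ε hε
  have hC' : 0 ≤ C + |c| := (wadd hW (abs_nonneg c)).C_nonneg
  obtain ⟨M, hM⟩ : ∃ M : ℝ, M = 1 + 169 * (C + |c|) / (ε / 3) := ⟨_, rfl⟩
  have hM1 : 1 ≤ M := by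
    rw [hM]
    have : 0 ≤ 169 * (C + |c|) / (ε / 3) := by positivity
    linarith
  have hM0 : 0 < M := by linarith
  obtain ⟨e, he⟩ : ∃ e : ℝ, e = ε / (3 * (132 * M)) := ⟨_, rfl⟩
  have he0 : 0 < e := by rw [he]; positivity
  obtain ⟨η₁, T₁, hη₁, h1⟩ := Conv_scale hc hM1 ha he0
  obtain ⟨η₂, T₂, hη₂, h2⟩ := Conv_small ha (max M (1 + 604 * |c| / (ε / 3)))
  refine ⟨min η₁ η₂, max T₁ T₂, lt_min hη₁ hη₂, fun δ r hr hδr => ?_⟩
  obtain ⟨b1, b2, hδ, -, hδ1⟩ := h2 δ r ((le_max_right _ _).trans hr)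
    (lt_of_lt_of_le hδr (min_le_right _ _))
  have hMr : M ≤ r := (le_max_left _ _).trans b1
  have hcr : 1 + 604 * |c| / (ε / 3) ≤ r := (le_max_right _ _).trans b1
  have hr0 : 0 < r := by linarith
  obtain ⟨τ, hτd⟩ : ∃ τ : ℝ, τ = Real.log (1 + 1 / r) := ⟨_, rfl⟩
  obtain ⟨hτ, hrτ, hrτ'⟩ := tau_le (r := r) (by linarith)
  rw [← hτd] at hτ hrτ hrτ'
  have hτ1 : τ ≤ 1 := by nlinarith
  have k1 := key hpb hW hδ hδ1 hM1 hMr hτ hrτ he0.le fun x hx1 hx2 =>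
    h1 δ r x ((le_max_left _ _).trans hr) (lt_of_lt_of_le hδr (min_le_left _ _)) hx1 hx2
  have k2 := Psi_one hs hpb hδ hδ1 hτ hτ1
  -- the constant weight
  have k3 : |r * Psi (fun _ _ => 1) δ τ - Real.pi| ≤ 604 / r := by
    have e1 : r * Psi (fun _ _ => 1) δ τ - Real.pi =
        r * (Psi (fun _ _ => 1) δ τ - Real.pi * τ) - Real.pi * (1 - r * τ) := by ring
    rw [e1]
    refine (abs_sub _ _).trans ?_
    rw [abs_mul, abs_mul, abs_of_pos hr0, abs_of_pos Real.pi_pos,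
      abs_of_nonneg (by linarith : 0 ≤ 1 - r * τ)]
    have e2 : r * |Psi (fun _ _ => 1) δ τ - Real.pi * τ| ≤ 600 / r := by
      refine (mul_le_mul_of_nonneg_left k2 hr0.le).trans ?_
      rw [le_div_iff₀ hr0]
      have : r * (600 * τ ^ 2) * r = 600 * (r * τ) ^ 2 := by ring
      rw [this]
      have := pow_le_one₀ (n := 2) (by positivity : 0 ≤ r * τ) hrτ
      linarith
    have e3 : Real.pi * (1 - r * τ) ≤ 4 * (1 / r) :=
      mul_le_mul Real.pi_le_four (by linarith) (by linarith) (by norm_num)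
    have e4 : 600 / r + 4 * (1 / r) = 604 / r := by ring
    linarith
  have k4 : |c * (r * Psi (fun _ _ => 1) δ τ) - c * Real.pi| ≤ ε / 3 := by
    rw [← mul_sub, abs_mul]
    refine (mul_le_mul_of_nonneg_left k3 (abs_nonneg c)).trans ?_
    have e1 : 604 * |c| / (ε / 3) ≤ r := by linarith
    rw [div_le_iff₀ (by positivity)] at e1
    rw [mul_div_assoc', div_le_iff₀ hr0]
    linarith
  have k5 : 169 * (C + |c|) / M ≤ ε / 3 := by
    rw [div_le_iff₀ hM0, hM]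
    have : ε / 3 * (1 + 169 * (C + |c|) / (ε / 3)) = ε / 3 + 169 * (C + |c|) := by
      field_simp
    rw [this]
    linarith
  have k6 : 132 * M * e = ε / 3 := by
    rw [he]
    field_simp
  have k7 : |r * Psi W δ τ - c * Real.pi| ≤ ε := by
    have := abs_sub_le (r * Psi W δ τ) (c * (r * Psi (fun _ _ => 1) δ τ)) (c * Real.pi)
    linarith
  unfold Phi
  rw [← hτd]
  have k8 : 2 / Real.pi * (r * Psi W δ τ) - 2 * c = 2 / Real.pi * (r * Psi W δ τ - c * Real.pi) := by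
    field_simp
  rw [k8, abs_mul, abs_of_pos (by positivity)]
  have k9 : 2 / Real.pi ≤ 1 := by
    rw [div_le_one Real.pi_pos]
    linarith [Real.pi_gt_three]
  exact (mul_le_of_le_one_left (abs_nonneg _) k9).trans k7

end Pool.Agent.J6H11.GIAB
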